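import Pool.Agent.KS6_77.SchurNF.Main

/-!
# Over every field: a smooth dg category no part of whose tensor powers is Schur-finite

Let `k` be any field. There is a smooth dg category `A` over `k` such that the following holds for
its image `U A` under every Morita invariant `U` with values in a `ℚ`-linear symmetric monoidal
category which sends the empty dg category to zero and `k` to the (non zero) unit. Not only `U A`,
but all objects built from it by the following constructions, which can be iterated, are not
Schur-finite: objects through which the action of a non zero element of the group algebra of a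
symmetric group `S_n`, `n ≥ 1`, on the `n`-th tensor power factors (in particular the values of
all Schur functors); tensor products; objects containing a given one as a direct summand. Moreover
the group algebras of all symmetric groups act faithfully on the tensor powers of all these objects,
and each of them contains infinitely many orthogonal copies of the unit.
-/

set_option autoImplicit false

open CategoryTheory MonoidalCategory Limits

namespace Pool.Agent.Results.MP_b5fdc6_ag.NoSchurFiniteParts

open Pool.Agent.TH137.NC Pool.Agent.KS6_77.SchurNF

universe v u

theorem result (k : Type) [Field k] :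
    ∃ A : DGCat.{0, 0} k, IsSmooth A ∧
      ∀ (S : ObjectProperty (DGCat.{0, 0} k)) (hA : S A) (hk : S (DGCat.base k))
        (h0 : S (DGCat.empty k)),
        (∀ (B B' : DGCat.{0, 0} k) (F : B ⟶ B'), IsMorita F → (S B ↔ S B')) →
        ∀ (C : Type u) [Category.{v} C] [MonoidalCategory C] [SymmetricCategory C]
          [Preadditive C] [Linear ℚ C] [MonoidalPreadditive C] (U : S.FullSubcategory ⥤ C),
          (∀ (B B' : S.FullSubcategory) (F : B ⟶ B'), IsMorita F.hom → IsIso (U.map F)) →
          IsZero (U.obj ⟨DGCat.empty k, h0⟩) →
          Nonempty (U.obj ⟨DGCat.base k, hk⟩ ≅ 𝟙_ C) →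
          ¬ IsZero (𝟙_ C) →
          Wild (U.obj ⟨A, hA⟩) :=
  ⟨Pool.Agent.TH137.cA (Pool.Agent.Y112.NF.XA k).toCat, Pool.Agent.Y112.NF.XA_smooth k,
    fun S hA hk h0 hM _ _ _ _ _ _ _ U hU hZ h1 hne =>
      Pool.Agent.KS6_77.SchurNF.main k S hM hA hk h0 U hU hZ h1 hne⟩

end Pool.Agent.Results.MP_b5fdc6_ag.NoSchurFiniteParts
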